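import Pool.Agent.P.MP_5d7cf0_gt.T.Asm
import Pool.Agent.P.MP_5d7cf0_gt.T.Atl
import Pool.Agent.P.MP_5d7cf0_gt.T.Aut
import Pool.Agent.P.MP_5d7cf0_gt.T.Can
import Pool.Agent.P.MP_5d7cf0_gt.T.Cous
import Pool.Agent.P.MP_5d7cf0_gt.T.Cover
import Pool.Agent.P.MP_5d7cf0_gt.T.Curve
import Pool.Agent.P.MP_5d7cf0_gt.T.Cvr
import Pool.Agent.P.MP_5d7cf0_gt.T.Defo
import Pool.Agent.P.MP_5d7cf0_gt.T.Deg
import Pool.Agent.P.MP_5d7cf0_gt.T.Desc
import Pool.Agent.P.MP_5d7cf0_gt.T.Dim2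
import Pool.Agent.P.MP_5d7cf0_gt.T.Dol
import Pool.Agent.P.MP_5d7cf0_gt.T.Fam
import Pool.Agent.P.MP_5d7cf0_gt.T.Gen
import Pool.Agent.P.MP_5d7cf0_gt.T.Gen2
import Pool.Agent.P.MP_5d7cf0_gt.T.Good
import Pool.Agent.P.MP_5d7cf0_gt.T.KerA
import Pool.Agent.P.MP_5d7cf0_gt.T.KerB
import Pool.Agent.P.MP_5d7cf0_gt.T.Norm
import Pool.Agent.P.MP_5d7cf0_gt.T.PL
import Pool.Agent.P.MP_5d7cf0_gt.T.Per
import Pool.Agent.P.MP_5d7cf0_gt.T.Pq
import Pool.Agent.P.MP_5d7cf0_gt.T.Rel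
import Pool.Agent.P.MP_5d7cf0_gt.T.RieA
import Pool.Agent.P.MP_5d7cf0_gt.T.RieB
import Pool.Agent.P.MP_5d7cf0_gt.T.RieC
import Pool.Agent.P.MP_5d7cf0_gt.T.Root
import Pool.Agent.P.MP_5d7cf0_gt.T.Six
import Pool.Agent.P.MP_5d7cf0_gt.T.Two

/-!
The Teichmueller space of genus two carries a complete Riemannian metric, invariant under the
mapping class group, of finite covolume and with sectional curvature in `[-a, 0]`.
-/

open Manifold
open scoped ContDiff

namespace Pool.Agent.Results.MP_5d7cf0_gt.TeichTwo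

open Pool.Agent.P.MP_5d7cf0_gt.T

/-- A closed oriented surface of genus two: a compact connected Riemann surface whose first Betti
number is four. -/
def GenusTwo (S : Type) [TopologicalSpace S] [ChartedSpace ℂ S] : Prop :=
  T2Space S ∧ CompactSpace S ∧ ConnectedSpace S ∧ IsManifold 𝓘(ℂ) ω S ∧
    ∃ s : S, Module.finrank ℂ (Additive (FundamentalGroup S s) →+ ℂ) = 4

theorem result : (∃ (S : Type) (_ : TopologicalSpace S) (_ : ChartedSpace ℂ S), GenusTwo S) ∧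
    ∀ (S : Type) [TopologicalSpace S] [ChartedSpace ℂ S], GenusTwo S →
      Admits S (Fin 3 → ℂ) realBasis := by
  have hA := Pool.Agent.P.MP_5d7cf0_gt.pAct
  have hDol : S_Dol := dol cover pol kerA (kerB kerA)
  have hML := mL hDol pol
  have hW : S_W := rootW iota (desc iota) (odd iota)
  have hBpf : S_Bpf := bpf hML deg
  have hCan : S_Can := can hW iota hBpf
  refine ⟨?_, fun S _ _ ⟨h1, h2, h3, h4, s, h5⟩ => ?_⟩
  · obtain ⟨Y, t, c, r, f, W, p, R, ι, h1, h2, h3⟩ := curve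
    have h4 := dim2 iota (desc iota) (odd iota) Y f W p R ι h1 h2 h3
    refine ⟨Y, t, c, inferInstance, inferInstance, inferInstance, inferInstance, p, ?_⟩
    rw [gen2 hDol pol repEx per p1 (p2 cover) Y p (Module.finite_of_finrank_pos (by omega)), h4]
  · have : RS S := { h1, h2, h3, h4 with }
    exact asm b4 (gen hDol pol repEx per p1 (p2 cover)) (pq hML deg) (two deg)
      (six hW iota (desc iota) (odd iota)) normal mot mobC defo fam (pL cvr hA)
      (rel (aT hCan cvr) (nT hCan cvr p3) bi (uq hW)) (atl hA mobC.1) (rieA hA) rieB isom pin lind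
      good s h5

end Pool.Agent.Results.MP_5d7cf0_gt.TeichTwo
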